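import Mathlib
import Pool.Agent.H105Z.N5.G

set_option autoImplicit false
open scoped Manifold ContDiff

namespace Pool.Agent.Results.MP_a9c398_gt.AChiMinusThree

/-- The first Betti number of `M` with coefficients in the field with two elements is `b`: there
are exactly `2 ^ b` homomorphisms from the fundamental group of `M` to the group of order two. -/
def BettiOneModTwo (M : Type) [TopologicalSpace M] (b : ℕ) : Prop :=
  ∃ x : M, Nat.card (FundamentalGroup M x →* Multiplicative (ZMod 2)) = 2 ^ b

/-- `f` is a smooth immersion of the manifold `M`, modelled on the normed space `E`, into the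
normed space `F`. -/
def SmoothImmersion {E F M : Type} [NormedAddCommGroup E] [NormedSpace ℝ E]
    [NormedAddCommGroup F] [NormedSpace ℝ F] [TopologicalSpace M] [ChartedSpace E M]
    (f : M → F) : Prop :=
  ContMDiff 𝓘(ℝ, E) 𝓘(ℝ, F) ∞ f ∧ ∀ x : M, Function.Injective (mfderiv 𝓘(ℝ, E) 𝓘(ℝ, F) f x)

/-- `f` is tight (two-piece property): the preimage of every open half-space is connected
(or empty). -/
def Tight {F M : Type} [NormedAddCommGroup F] [InnerProductSpace ℝ F] [TopologicalSpace M]
    (f : M → F) : Prop :=
  ∀ (u : F) (c : ℝ), IsPreconnected (f ⁻¹' {y : F | c < inner ℝ u y})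

/-- `f` is substantial: its image lies in no affine hyperplane. -/
def Substantial {F M : Type} [NormedAddCommGroup F] [InnerProductSpace ℝ F] (f : M → F) : Prop :=
  ∀ (u : F) (c : ℝ), u ≠ 0 → ∃ x : M, inner ℝ u (f x) ≠ c

/-- There is a closed connected smooth surface `M` with first Betti number mod 2 equal to five
(so its Euler characteristic is `-3`), and a smooth tight substantial immersion of `M` into
Euclidean four-space, which moreover is an embedding. -/
theorem result :
    ∃ (M : Type) (_ : TopologicalSpace M) (_ : ChartedSpace (EuclideanSpace ℝ (Fin 2)) M),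
      IsManifold (𝓡 2) ∞ M ∧ CompactSpace M ∧ ConnectedSpace M ∧ T2Space M ∧
      BettiOneModTwo M 5 ∧
      ∃ f : M → EuclideanSpace ℝ (Fin 4),
        SmoothImmersion (E := EuclideanSpace ℝ (Fin 2)) f ∧ Tight f ∧ Substantial f ∧
        Topology.IsEmbedding f := by
  obtain ⟨M, i1, i2, i3, i4, i5, i6, f, h1, h2, h3, h4, h5, h6, h7⟩ :=
    Pool.Agent.H105Z.N5.n5_main
  refine ⟨M, i1, i2, i3, i4, i5, i6, h4, f, ⟨h1, h3⟩, h6, ?_, h2⟩
  intro u c hu
  by_contra hcon
  push Not at hcon
  exact hu (h7 u c hcon)

end Pool.Agent.Results.MP_a9c398_gt.AChiMinusThree
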